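import Pool.Agent.Lib_helper13.EWFinal

/-!
# Numerical semigroups of maximal effective weight

For every genus `g`, the maximal effective weight is `⌊(g+1)²/8⌋`, and all maximisers are
determined.  The definitions are in `Pool/Agent/Lib_helper13/EWDefs.lean` and
`Pool/Agent/Lib_helper13/EWFinalDefs.lean`.
-/

namespace Pool.Agent.Results.MP_a02391_co.AllMaximisers

open Pool.Agent.EffWeight Filter Topology

/-- **Main theorem.**
1. `M(g)` is the maximum of the effective weight over the numerical semigroups of genus `g`,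
   and `M(g) = ⌊(g+1)²/8⌋` for every `g`.
2. `S` is a maximiser of genus `g` if and only if `S = ⟨a, a+1, …, 2a-h-1⟩` for some `a, h` with
   `a + h = g + 1`, `|a - 3h| ≤ 2` and `2h + 1 ≤ a`, or `S` is one of the `15` sporadic
   semigroups in the list `sporadic` (all of genus at most `9`).
3. For `g ≥ 10` there is a maximiser, and every maximiser is `⟨a, a+1, …, b⟩` with
   `2 ≤ a < b < 2a`.
4. `M(g) / g² → 1/8`. -/
theorem result :
    (∀ g : ℕ, IsGreatest {w | ∃ S : Set ℕ, IsNumSemigroup S ∧ genus S = g ∧ effWeight S = w}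
        (maxEffWeight g) ∧ maxEffWeight g = (g + 1) ^ 2 / 8) ∧
    (∀ (g : ℕ) (S : Set ℕ), IsMaximiser g S ↔
      (∃ a h : ℕ, a + h = g + 1 ∧ 2 * h + 1 ≤ a ∧ a ≤ 3 * h + 2 ∧ 3 * h ≤ a + 2 ∧
        S = gen (Set.Icc a (2 * a - h - 1))) ∨
      (∃ A : Finset ℕ, (g, A) ∈ sporadic ∧ S = gen (A : Set ℕ))) ∧
    (∀ g : ℕ, 10 ≤ g → (∃ S, IsMaximiser g S) ∧
      ∀ S, IsMaximiser g S →
        ∃ a b : ℕ, 2 ≤ a ∧ a < b ∧ b < 2 * a ∧ S = gen (Set.Icc a b)) ∧
    Tendsto (fun g : ℕ => (maxEffWeight g : ℝ) / (g : ℝ) ^ 2) atTop (𝓝 (1 / 8)) :=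
  ⟨fun g => ⟨by rw [maxEffWeight_eq]; exact isGreatest_eff g, maxEffWeight_eq g⟩,
    isMaximiser_iff, large_genus, tendsto_max⟩

end Pool.Agent.Results.MP_a02391_co.AllMaximisers
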